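import Pool.Agent.Helper93.Curl.HarmA

/-!
MP_9cc3a3_an, packet C-HARM: the harmonic representative.
-/

open MeasureTheory Set Filter Topology Metric
open scoped ContDiff RealInnerProductSpace
open Pool.Agent.Helper38.Curl

namespace Pool.Agent.Helper93.Curl

theorem c0_nonneg : 0 ≤ (∫ z, kap0 z)⁻¹ :=
  inv_nonneg.2 (integral_nonneg fun _ => expNegInvGlue.nonneg _)

theorem kap_cont (r : ℝ) : Continuous (kap r) := by
  unfold kap kap0
  have h1 : Continuous expNegInvGlue := (expNegInvGlue.contDiff (n := 0)).continuous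
  fun_prop

theorem kap_van {r : ℝ} (hr : 0 < r) {z : E} (hz : r ≤ ‖z‖) : kap r z = 0 := by
  rw [kap_eq, kk_zero, mul_zero]
  rw [le_div_iff₀ (by positivity), one_mul]
  exact pow_le_pow_left₀ hr.le hz 2

/-- The mean with the kernel of radius `r` does not depend on `r`. -/
theorem mean_const {W : E → ℝ} (hW : Integrable W) {x : E} {ρ : ℝ}
    (h : ∀ r, 0 < r → r < ρ → ∫ y, W y * gg (‖y - x‖ ^ 2 / r ^ 2) = 0) {r₁ r₂ : ℝ} (h1 : 0 < r₁)
    (h2 : r₁ < ρ) (h3 : 0 < r₂) (h4 : r₂ < ρ) :
    ∫ y, kap r₁ (x - y) * W y = ∫ y, kap r₂ (x - y) * W y := by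
  obtain ⟨C, hC0, hC⟩ := gg_bound
  set c0 : ℝ := (∫ z, kap0 z)⁻¹ with hc0
  have hc : 0 ≤ c0 := c0_nonneg
  have hmeas : ∀ r : ℝ, AEStronglyMeasurable (fun y => kap r (x - y) * W y) volume := fun r =>
    (((kap_cont r).comp (continuous_const.sub continuous_id)).aestronglyMeasurable).mul hW.1
  have hint : ∀ r : ℝ, 0 < r → Integrable (fun y => kap r (x - y) * W y) := by
    intro r hr
    refine hW.bdd_mul (((kap_cont r).comp
      (continuous_const.sub continuous_id)).aestronglyMeasurable) (c := c0 * (r ^ 3)⁻¹) ?_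
    exact Eventually.of_forall fun y => kap_abs_le hr _
  have key : ∀ r ∈ Ioo 0 ρ, HasDerivAt (fun r => ∫ y, kap r (x - y) * W y) 0 r := by
    rintro r ⟨hr, hrρ⟩
    have hd := hasDerivAt_integral_of_dominated_loc_of_deriv_le (μ := volume) (𝕜 := ℝ)
      (F := fun r y => kap r (x - y) * W y)
      (F' := fun r y => -(c0 * (r ^ 4)⁻¹ * gg (‖x - y‖ ^ 2 / r ^ 2)) * W y)
      (x₀ := r) (s := ball r (r / 2)) (bound := fun y => (c0 * ((r / 2) ^ 4)⁻¹ * C) * ‖W y‖)
      (ball_mem_nhds r (by linarith)) (Eventually.of_forall fun r => hmeas r) (hint r hr) ?_ ?_ ?_ ?_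
    · have h5 : ∫ y, -(c0 * (r ^ 4)⁻¹ * gg (‖x - y‖ ^ 2 / r ^ 2)) * W y = 0 := by
        have e : (fun y => -(c0 * (r ^ 4)⁻¹ * gg (‖x - y‖ ^ 2 / r ^ 2)) * W y) =
            fun y => (-(c0 * (r ^ 4)⁻¹)) * (W y * gg (‖y - x‖ ^ 2 / r ^ 2)) := by
          funext y
          rw [norm_sub_rev x y]
          ring
        rw [e, integral_const_mul, h r hr hrρ, mul_zero]
      rw [h5] at hd
      exact hd.2
    · refine AEStronglyMeasurable.mul ?_ hW.1
      have h6 : Continuous fun y : E => -(c0 * (r ^ 4)⁻¹ * gg (‖x - y‖ ^ 2 / r ^ 2)) := by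
        have := gg_continuous
        fun_prop
      exact h6.aestronglyMeasurable
    · refine Eventually.of_forall fun y r' hr' => ?_
      rw [mem_ball, Real.dist_eq, abs_lt] at hr'
      have hr'0 : r / 2 < r' := by linarith
      have h7 : (r' ^ 4)⁻¹ ≤ ((r / 2) ^ 4)⁻¹ := by
        apply inv_anti₀ (by positivity)
        exact pow_le_pow_left₀ (by positivity) hr'0.le 4
      have h8 : |gg (‖x - y‖ ^ 2 / r' ^ 2)| ≤ C := hC _ (by positivity)
      have h9 : 0 ≤ (r' ^ 4)⁻¹ := by positivity
      rw [norm_mul, norm_neg, norm_mul, norm_mul, Real.norm_eq_abs c0, abs_of_nonneg hc,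
        Real.norm_eq_abs (r' ^ 4)⁻¹, abs_of_nonneg h9, Real.norm_eq_abs (gg _)]
      apply mul_le_mul_of_nonneg_right _ (norm_nonneg _)
      apply mul_le_mul (mul_le_mul_of_nonneg_left h7 hc) h8 (abs_nonneg _)
      positivity
    · exact hW.norm.const_mul _
    · refine Eventually.of_forall fun y r' hr' => ?_
      rw [mem_ball, Real.dist_eq, abs_lt] at hr'
      have hr'0 : 0 < r' := by linarith
      exact (kap_deriv (x - y) hr'0).mul_const (W y)
  exact isOpen_Ioo.is_const_of_deriv_eq_zero isPreconnected_Ioo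
    (f := fun r => ∫ y, kap r (x - y) * W y)
    (fun r hr => (key r hr).differentiableAt.differentiableWithinAt)
    (fun r hr => (key r hr).deriv) ⟨h1, h2⟩ ⟨h3, h4⟩

/-- Restriction to a closed ball. -/
theorem ind_integrable {V : E → E} {x : E} {ρ : ℝ}
    (hV : MemLp V 2 (volume.restrict (closedBall x ρ))) :
    Integrable ((closedBall x ρ).indicator V) := by
  rw [integrable_indicator_iff measurableSet_closedBall]
  have : IsFiniteMeasure (volume.restrict (closedBall x ρ)) :=
    ⟨by rw [Measure.restrict_apply_univ]; exact measure_closedBall_lt_top⟩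
  exact hV.integrable (by norm_num)

theorem mol_ind {V : E → E} {c x : E} {r ρ : ℝ} (hr : 0 < r) (h : ball x r ⊆ closedBall c ρ) :
    mol r ((closedBall c ρ).indicator V) x = mol r V x := by
  unfold mol
  congr 1
  funext y
  by_cases hy : y ∈ closedBall c ρ
  · rw [indicator_of_mem hy]
  · rw [indicator_of_notMem hy, smul_zero, kap_van hr, zero_smul]
    by_contra hcon
    apply hy
    apply h
    rw [mem_ball, dist_comm, dist_eq_norm]
    exact not_le.1 hcon

theorem mol_apply {V : E → E} (hV : Integrable V) {r : ℝ} (hr : 0 < r) (x : E) (i : Fin 3) :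
    mol r V x i = ∫ y, kap r (x - y) * V y i := by
  have h1 : Integrable (fun y => kap r (x - y) • V y) :=
    hV.bdd_smul ((∫ z, kap0 z)⁻¹ * (r ^ 3)⁻¹) (((kap_cont r).comp
      (continuous_const.sub continuous_id)).aestronglyMeasurable)
      (Eventually.of_forall fun y => kap_abs_le hr _)
  have h2 := ContinuousLinearMap.integral_comp_comm (EuclideanSpace.proj i : E →L[ℝ] ℝ) h1
  exact h2.symm

theorem mean_eq {U : Set E} (hU : IsOpen U) {V : E → E}
    (hV : ∀ z ρ, closedBall z ρ ⊆ U → MemLp V 2 (volume.restrict (closedBall z ρ)))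
    (h : ∀ z ρ, 0 < ρ → closedBall z ρ ⊆ U → WH (ball z ρ) V) {x : E} {r₁ r₂ : ℝ} (h1 : 0 < r₁)
    (h12 : r₁ ≤ r₂) (h2 : closedBall x r₂ ⊆ U) : mol r₁ V x = mol r₂ V x := by
  obtain ⟨δ, hδ, hδU⟩ := (isCompact_closedBall x r₂).exists_cthickening_subset_open hU h2
  rw [cthickening_closedBall hδ.le (h1.trans_le h12).le] at hδU
  set ρ := δ + r₂ with hρ
  have hρ2 : r₂ < ρ := by linarith
  have hρ0 : 0 < ρ := by linarith
  have hVρ := hV x ρ hδU
  have hint := ind_integrable hVρ
  have hWH := h x ρ hρ0 hδU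
  obtain ⟨Q, hQs, hQd, hQ0⟩ := exists_Q
  rw [← mol_ind (V := V) h1 ((ball_subset_ball (by linarith)).trans ball_subset_closedBall :
      ball x r₁ ⊆ closedBall x ρ),
    ← mol_ind (V := V) (h1.trans_le h12) ((ball_subset_ball (by linarith)).trans
      ball_subset_closedBall : ball x r₂ ⊆ closedBall x ρ)]
  have key : ∀ i : Fin 3, mol r₁ ((closedBall x ρ).indicator V) x i =
      mol r₂ ((closedBall x ρ).indicator V) x i := by
    intro i
    rw [mol_apply hint h1, mol_apply hint (h1.trans_le h12)]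
    have hWi : Integrable (fun y => ((closedBall x ρ).indicator V y) i) :=
      (EuclideanSpace.proj i : E →L[ℝ] ℝ).integrable_comp hint
    apply mean_const hWi (ρ := ρ) _ h1 (by linarith) (by linarith) hρ2
    intro r hr hrρ
    have hφ : TestFIn (ball x ρ) (fun y => Q (‖y - x‖ ^ 2 / r ^ 2)) := by
      have hs : tsupport (fun y : E => Q (‖y - x‖ ^ 2 / r ^ 2)) ⊆ closedBall x r := by
        apply closure_minimal _ isClosed_closedBall
        intro y hy
        by_contra hcon
        apply hy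
        apply hQ0
        rw [mem_closedBall, dist_eq_norm, not_le] at hcon
        rw [le_div_iff₀ (by positivity), one_mul]
        exact pow_le_pow_left₀ hr.le hcon.le 2
      refine ⟨⟨?_, ?_⟩, hs.trans (closedBall_subset_ball hrρ)⟩
      · apply hQs.comp
        have : ContDiff ℝ ∞ (fun y : E => ‖y - x‖ ^ 2) :=
          (contDiff_id.sub contDiff_const).norm_sq ℝ
        exact this.div_const _
      · exact (isCompact_closedBall x r).of_isClosed_subset (isClosed_tsupport _) hs
    have h5 := hWH _ hφ i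
    have e : (fun y => V y i * lap (fun y => Q (‖y - x‖ ^ 2 / r ^ 2)) y) =
        fun y => (1 / r ^ 2) * (((closedBall x ρ).indicator V y) i *
          gg (‖y - x‖ ^ 2 / r ^ 2)) := by
      funext y
      rw [lap_eq hQd]
      by_cases hy : y ∈ closedBall x ρ
      · rw [indicator_of_mem hy]
        ring
      · have h6 : gg (‖y - x‖ ^ 2 / r ^ 2) = 0 := by
          apply gg_zero
          rw [mem_closedBall, dist_eq_norm, not_le] at hy
          rw [lt_div_iff₀ (by positivity), one_mul]
          exact pow_lt_pow_left₀ (hrρ.trans hy) hr.le two_ne_zero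
        rw [h6]
        ring
    rw [e, integral_const_mul] at h5
    rcases mul_eq_zero.1 h5 with h7 | h7
    · exfalso
      have : (0 : ℝ) < 1 / r ^ 2 := by positivity
      linarith
    · exact h7
  ext i
  exact key i

/-- Continuity of the mollified field. -/
theorem mol_cont {V : E → E} (hV : Integrable V) {r : ℝ} (hr : 0 < r) : Continuous (mol r V) := by
  unfold mol
  apply continuous_of_dominated (bound := fun y => (∫ z, kap0 z)⁻¹ * (r ^ 3)⁻¹ * ‖V y‖)
  · intro x
    exact (((kap_cont r).comp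
      (continuous_const.sub continuous_id)).aestronglyMeasurable).smul hV.1
  · intro x
    refine Eventually.of_forall fun y => ?_
    rw [norm_smul]
    exact mul_le_mul_of_nonneg_right (kap_abs_le hr _) (norm_nonneg _)
  · exact hV.norm.const_mul _
  · refine Eventually.of_forall fun y => ?_
    exact ((kap_cont r).comp (continuous_id.sub continuous_const)).smul continuous_const

/-- The harmonic representative, given the `L²` convergence of mollifications (packet C-M2). -/
theorem harm_rep_of (mol_tendsto : ∀ {v : E → E}, MemLp v 2 →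
      Tendsto (fun r => Pool.Agent.Helper38.Curl.sq (fun x => mol r v x - v x)) (𝓝[>] 0) (𝓝 0))
    {U : Set E} (hU : IsOpen U) {V : E → E}
    (hV : ∀ z ρ, closedBall z ρ ⊆ U → MemLp V 2 (volume.restrict (closedBall z ρ)))
    (h : ∀ z ρ, 0 < ρ → closedBall z ρ ⊆ U → WH (ball z ρ) V) :
    ∃ F : E → E, ContinuousOn F U ∧ (∀ᵐ x, x ∈ U → F x = V x) ∧
      ∀ x r, 0 < r → closedBall x r ⊆ U → F x = mol r V x := by
  classical
  have hr : ∀ x, ∃ r : ℝ, x ∈ U → 0 < r ∧ closedBall x r ⊆ U := by
    intro x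
    by_cases hx : x ∈ U
    · obtain ⟨r, hr0, hr1⟩ := nhds_basis_closedBall.mem_iff.1 (hU.mem_nhds hx)
      exact ⟨r, fun _ => ⟨hr0, hr1⟩⟩
    · exact ⟨0, fun h => absurd h hx⟩
  choose ro hro using hr
  have hmean : ∀ x r, 0 < r → closedBall x r ⊆ U → mol (ro x) V x = mol r V x := by
    intro x r hr hrU
    have hx : x ∈ U := hrU (mem_closedBall_self hr.le)
    obtain ⟨h1, h2⟩ := hro x hx
    rcases le_total (ro x) r with h3 | h3
    · exact mean_eq hU hV h h1 h3 hrU
    · exact (mean_eq hU hV h hr h3 h2).symm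
  -- local description
  have hloc : ∀ x₀ ∈ U, ∃ r : ℝ, 0 < r ∧ closedBall x₀ (2 * r) ⊆ U ∧
      ∀ x ∈ ball x₀ r, ∀ s, 0 < s → s ≤ r → mol (ro x) V x =
        mol s ((closedBall x₀ (2 * r)).indicator V) x := by
    intro x₀ hx₀
    obtain ⟨h1, h2⟩ := hro x₀ hx₀
    refine ⟨ro x₀ / 2, by linarith, by rwa [mul_div_cancel₀ _ two_ne_zero], ?_⟩
    rw [mul_div_cancel₀ _ two_ne_zero]
    intro x hx s hs hsr
    have h3 : closedBall x s ⊆ closedBall x₀ (ro x₀) := by
      apply closedBall_subset_closedBall'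
      rw [mem_ball] at hx
      linarith
    rw [mol_ind hs (ball_subset_closedBall.trans h3)]
    exact hmean x s hs (h3.trans h2)
  refine ⟨fun x => mol (ro x) V x, ?_, ?_, hmean⟩
  · intro x₀ hx₀
    obtain ⟨r, hr0, hrU, hr1⟩ := hloc x₀ hx₀
    have hc := mol_cont (ind_integrable (hV x₀ (2 * r) hrU)) hr0
    apply ContinuousAt.continuousWithinAt
    apply hc.continuousAt.congr
    filter_upwards [ball_mem_nhds x₀ hr0] with x hx
    exact (hr1 x hx r hr0 le_rfl).symm
  · -- almost everywhere equality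
    rw [ae_iff]
    apply measure_null_of_locally_null
    intro x₀ hx₀
    have hx₀U : x₀ ∈ U := by
      by_contra hcon
      exact hx₀ fun hc => absurd hc hcon
    obtain ⟨r, hr0, hrU, hr1⟩ := hloc x₀ hx₀U
    refine ⟨_, inter_mem_nhdsWithin _ (ball_mem_nhds x₀ hr0), ?_⟩
    set V1 : E → E := (closedBall x₀ (2 * r)).indicator V with hV1
    have hV1p : MemLp V1 2 := (memLp_indicator_iff_restrict measurableSet_closedBall).2
      (hV x₀ (2 * r) hrU)
    have hV1i : Integrable V1 := ind_integrable (hV x₀ (2 * r) hrU)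
    -- the difference with a fixed radius
    have hvan : VanOff (closedBall 0 (‖x₀‖ + 2 * r)) V1 := by
      refine Eventually.of_forall fun x hx => ?_
      apply indicator_of_notMem
      intro hcon
      apply hx
      rw [mem_closedBall, dist_eq_norm] at hcon
      rw [mem_closedBall, dist_zero_right]
      have := norm_sub_norm_le x x₀
      linarith
    have hmem : ∀ s, 0 < s → MemLp (fun x => mol s V1 x - V1 x) 2 := fun s hs =>
      (Pool.Agent.Helper94.Curl.mol_test hV1p hvan hs).memLp.sub hV1p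
    have hint : ∀ s, 0 < s → Integrable (fun x => ‖mol s V1 x - V1 x‖ ^ 2) := fun s hs =>
      integrable_norm_sq (hmem s hs)
    have hle : ∀ s, 0 < s → s ≤ r → ∫ x in ball x₀ r, ‖mol r V1 x - V1 x‖ ^ 2 ≤
        Pool.Agent.Helper38.Curl.sq (fun x => mol s V1 x - V1 x) := by
      intro s hs hsr
      have e1 : ∫ x in ball x₀ r, ‖mol r V1 x - V1 x‖ ^ 2 =
          ∫ x in ball x₀ r, ‖mol s V1 x - V1 x‖ ^ 2 := by
        apply setIntegral_congr_fun measurableSet_ball
        intro x hx
        show ‖mol r V1 x - V1 x‖ ^ 2 = ‖mol s V1 x - V1 x‖ ^ 2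
        rw [← hr1 x hx s hs hsr, ← hr1 x hx r hr0 le_rfl]
      rw [e1]
      exact setIntegral_le_integral (hint s hs) (Eventually.of_forall fun x => by positivity)
    have hI : ∫ x in ball x₀ r, ‖mol r V1 x - V1 x‖ ^ 2 ≤ 0 := by
      apply ge_of_tendsto (mol_tendsto hV1p)
      filter_upwards [Ioc_mem_nhdsGT hr0] with s hs
      exact hle s hs.1 hs.2
    have hI0 : ∫ x in ball x₀ r, ‖mol r V1 x - V1 x‖ ^ 2 = 0 :=
      le_antisymm hI (integral_nonneg fun x => by positivity)
    rw [setIntegral_eq_zero_iff_of_nonneg_ae (Eventually.of_forall fun x => by positivity)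
      (hint r hr0).integrableOn] at hI0
    have hae := (ae_restrict_iff' measurableSet_ball).1 hI0
    rw [ae_iff] at hae
    apply measure_mono_null _ hae
    rintro x ⟨hx1, hx2⟩
    simp only [mem_ofPred_eq, Classical.not_imp] at hx1 ⊢
    obtain ⟨hxU, hxF⟩ := hx1
    refine ⟨hx2, ?_⟩
    intro h0
    apply hxF
    have h1 : V1 x = V x := by
      apply indicator_of_mem
      have : ball x₀ r ⊆ closedBall x₀ (2 * r) :=
        (ball_subset_ball (by linarith)).trans ball_subset_closedBall
      exact this hx2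
    rw [hr1 x hx2 r hr0 le_rfl, ← h1]
    have h2 : ‖mol r V1 x - V1 x‖ ^ 2 = 0 := h0
    have h3 : ‖mol r V1 x - V1 x‖ = 0 := eq_zero_of_pow_eq_zero h2
    exact sub_eq_zero.1 (norm_eq_zero.1 h3)

end Pool.Agent.Helper93.Curl
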