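import Pool.Agent.Helper38.Curl.Rep
import Pool.Agent.Helper94.Curl.MollA

/-!
MP_9cc3a3_an, packet C-HARM, first part: the profile of the mollifiers and their derivative with
respect to the radius.
-/

open MeasureTheory Set Filter Topology Metric
open scoped ContDiff RealInnerProductSpace
open Pool.Agent.Helper38.Curl

namespace Pool.Agent.Helper93.Curl

/-- The profile. -/
noncomputable def kk (s : ℝ) : ℝ := expNegInvGlue (1 - s)

theorem kk_contDiff : ContDiff ℝ ∞ kk :=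
  (expNegInvGlue.contDiff (n := ⊤)).comp (contDiff_const.sub contDiff_id)

theorem kk_differentiable : Differentiable ℝ kk := kk_contDiff.differentiable (by simp)

theorem kk_zero {s : ℝ} (hs : 1 ≤ s) : kk s = 0 := expNegInvGlue.zero_of_nonpos (by linarith)

theorem kk_nonneg (s : ℝ) : 0 ≤ kk s := expNegInvGlue.nonneg _

theorem kk_le_one (s : ℝ) : kk s ≤ 1 := by
  unfold kk expNegInvGlue
  split_ifs with h
  · exact zero_le_one
  · rw [Real.exp_le_one_iff]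
    have : 0 < (1 - s)⁻¹ := inv_pos.2 (not_le.1 h)
    linarith

theorem deriv_kk_contDiff : ContDiff ℝ ∞ (deriv kk) := by
  have := (contDiff_infty_iff_deriv.1 kk_contDiff).2
  exact this

theorem deriv_kk_zero {s : ℝ} (hs : 1 < s) : deriv kk s = 0 := by
  have h : kk =ᶠ[𝓝 s] fun _ => 0 := by
    filter_upwards [lt_mem_nhds hs] with t ht
    exact kk_zero ht.le
  rw [h.deriv_eq]
  simp

/-- A primitive of half the profile. -/
theorem exists_Q : ∃ Q : ℝ → ℝ, ContDiff ℝ ∞ Q ∧ (∀ s, HasDerivAt Q (kk s / 2) s) ∧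
    ∀ s, 1 ≤ s → Q s = 0 := by
  have hc : Continuous (fun t => kk t / 2) := kk_contDiff.continuous.div_const 2
  have hd : ∀ s, HasDerivAt (fun s => ∫ t in (1 : ℝ)..s, kk t / 2) (kk s / 2) s := fun s =>
    hc.integral_hasStrictDerivAt 1 s |>.hasDerivAt
  refine ⟨fun s => ∫ t in (1 : ℝ)..s, kk t / 2, ?_, hd, ?_⟩
  · rw [contDiff_infty_iff_deriv]
    refine ⟨fun s => (hd s).differentiableAt, ?_⟩
    have : deriv (fun s => ∫ t in (1 : ℝ)..s, kk t / 2) = fun s => kk s / 2 := by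
      funext s
      exact (hd s).deriv
    rw [this]
    exact kk_contDiff.div_const 2
  · intro s hs
    have : ∫ t in (1 : ℝ)..s, kk t / 2 = ∫ _t in (1 : ℝ)..s, (0 : ℝ) := by
      apply intervalIntegral.integral_congr
      intro t ht
      rw [uIcc_of_le hs] at ht
      show kk t / 2 = 0
      rw [kk_zero ht.1, zero_div]
    show ∫ t in (1 : ℝ)..s, kk t / 2 = 0
    rw [this, intervalIntegral.integral_zero]

/-- The profile of the Laplacian. -/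
noncomputable def gg (s : ℝ) : ℝ := 3 * kk s + 2 * s * deriv kk s

theorem gg_continuous : Continuous gg := by
  unfold gg
  exact (continuous_const.mul kk_contDiff.continuous).add
    ((continuous_const.mul continuous_id).mul deriv_kk_contDiff.continuous)

theorem gg_zero {s : ℝ} (hs : 1 < s) : gg s = 0 := by
  unfold gg
  rw [kk_zero hs.le, deriv_kk_zero hs]
  ring

theorem gg_bound : ∃ C : ℝ, 0 ≤ C ∧ ∀ s, 0 ≤ s → |gg s| ≤ C := by
  obtain ⟨C, hC⟩ := isCompact_Icc.exists_bound_of_continuousOn (s := Icc (0 : ℝ) 1)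
    gg_continuous.continuousOn
  refine ⟨max C 0, le_max_right _ _, fun s hs => ?_⟩
  rcases le_or_gt s 1 with h | h
  · exact (hC s ⟨hs, h⟩).trans (le_max_left _ _)
  · rw [gg_zero h, abs_zero]
    exact le_max_right _ _

theorem hasFDerivAt_s (x y : E) (r : ℝ) :
    HasFDerivAt (fun y : E => ‖y - x‖ ^ 2 / r ^ 2) ((2 / r ^ 2) • innerSL ℝ (y - x)) y := by
  have h1 : HasFDerivAt (fun y : E => y - x) (ContinuousLinearMap.id ℝ E) y :=
    (hasFDerivAt_id y).sub_const x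
  have h2 := h1.norm_sq.const_mul (1 / r ^ 2)
  have e : (fun y : E => ‖y - x‖ ^ 2 / r ^ 2) = fun y => 1 / r ^ 2 * ‖y - x‖ ^ 2 := by
    funext y; ring
  rw [e]
  refine h2.congr_fderiv ?_
  ext v
  simp
  generalize ⟪y, v⟫ - ⟪x, v⟫ = c
  ring

theorem inner_bv (w : E) (i : Fin 3) : ⟪w, bv i⟫ = w i := by
  rw [inner_eq]
  fin_cases i <;> simp [bv]

theorem lap_eq {Q : ℝ → ℝ} (hQ : ∀ s, HasDerivAt Q (kk s / 2) s) (x y : E) (r : ℝ) :
    lap (fun y => Q (‖y - x‖ ^ 2 / r ^ 2)) y = gg (‖y - x‖ ^ 2 / r ^ 2) / r ^ 2 := by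
  have h1 : ∀ (y : E) (i : Fin 3), fderiv ℝ (fun y => Q (‖y - x‖ ^ 2 / r ^ 2)) y (bv i) =
      kk (‖y - x‖ ^ 2 / r ^ 2) * ((y - x) i / r ^ 2) := by
    intro y i
    have h2 := (hQ (‖y - x‖ ^ 2 / r ^ 2)).comp_hasFDerivAt y (hasFDerivAt_s x y r)
    have h3 : fderiv ℝ (fun y => Q (‖y - x‖ ^ 2 / r ^ 2)) y = _ := h2.fderiv
    rw [h3]
    simp only [_root_.smul_apply, innerSL_apply_apply, smul_eq_mul]
    rw [inner_bv]
    ring
  have h4 : ∀ i : Fin 3, fderiv ℝ (fun y => fderiv ℝ (fun y => Q (‖y - x‖ ^ 2 / r ^ 2)) y (bv i))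
      y (bv i) = deriv kk (‖y - x‖ ^ 2 / r ^ 2) * (2 * (y - x) i ^ 2 / r ^ 2 / r ^ 2) +
        kk (‖y - x‖ ^ 2 / r ^ 2) / r ^ 2 := by
    intro i
    have e : (fun y => fderiv ℝ (fun y => Q (‖y - x‖ ^ 2 / r ^ 2)) y (bv i)) =
        fun y => kk (‖y - x‖ ^ 2 / r ^ 2) * ((y - x) i / r ^ 2) := by
      funext y
      exact h1 y i
    rw [e]
    have h5 := ((kk_differentiable (‖y - x‖ ^ 2 / r ^ 2)).hasDerivAt).comp_hasFDerivAt y
      (hasFDerivAt_s x y r)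
    have h6 : HasFDerivAt (fun y : E => (y - x) i / r ^ 2)
        ((1 / r ^ 2) • (EuclideanSpace.proj i : E →L[ℝ] ℝ)) y := by
      have h7 : HasFDerivAt (fun y : E => y - x) (ContinuousLinearMap.id ℝ E) y :=
        (hasFDerivAt_id y).sub_const x
      have h8 := ((EuclideanSpace.proj i : E →L[ℝ] ℝ).hasFDerivAt (x := y - x)).comp y h7
      have h9 := h8.const_mul (1 / r ^ 2)
      have e9 : (fun y : E => (y - x) i / r ^ 2) = fun y =>
          1 / r ^ 2 * (⇑(EuclideanSpace.proj i : E →L[ℝ] ℝ) ∘ fun y => y - x) y := by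
        funext y
        show (y - x) i / r ^ 2 = 1 / r ^ 2 * (y - x) i
        ring
      rw [e9]
      refine h9.congr_fderiv ?_
      ext v
      simp
    have h10 := h5.mul h6
    have h11 : fderiv ℝ (fun y : E => kk (‖y - x‖ ^ 2 / r ^ 2) * ((y - x) i / r ^ 2)) y = _ :=
      h10.fderiv
    rw [h11]
    simp only [_root_.add_apply, _root_.smul_apply, innerSL_apply_apply,
      smul_eq_mul, Function.comp]
    rw [inner_bv]
    have h12 : (EuclideanSpace.proj i : E →L[ℝ] ℝ) (bv i) = 1 := by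
      simp [bv]
    rw [h12]
    ring
  unfold lap
  rw [Fin.sum_univ_three, h4, h4, h4]
  unfold gg
  have h13 : ‖y - x‖ ^ 2 = (y - x) 0 ^ 2 + (y - x) 1 ^ 2 + (y - x) 2 ^ 2 := norm_sq_eq _
  generalize deriv kk (‖y - x‖ ^ 2 / r ^ 2) = a
  generalize kk (‖y - x‖ ^ 2 / r ^ 2) = b
  rw [h13]
  ring

theorem kap_eq (r : ℝ) (z : E) :
    kap r z = (∫ z, kap0 z)⁻¹ * (r ^ 3)⁻¹ * kk (‖z‖ ^ 2 / r ^ 2) := by
  unfold kap kap0 kk
  congr 3
  rw [norm_smul, mul_pow, Real.norm_eq_abs, sq_abs, inv_pow]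
  ring

theorem kap_deriv (z : E) {r : ℝ} (hr : 0 < r) : HasDerivAt (fun r => kap r z)
    (-((∫ z, kap0 z)⁻¹ * (r ^ 4)⁻¹ * gg (‖z‖ ^ 2 / r ^ 2))) r := by
  have e : (fun r => kap r z) = fun r =>
      (∫ z, kap0 z)⁻¹ * ((r ^ 3)⁻¹ * kk (‖z‖ ^ 2 / r ^ 2)) := by
    funext r
    rw [kap_eq, mul_assoc]
  rw [e]
  have hr0 : r ≠ 0 := hr.ne'
  have h1 : HasDerivAt (fun r : ℝ => (r ^ 3)⁻¹) (-(3 * r ^ 2) / (r ^ 3) ^ 2) r := by
    refine ((hasDerivAt_pow 3 r).fun_inv (pow_ne_zero 3 hr0)).congr_deriv ?_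
    norm_num
  have h2 : HasDerivAt (fun r : ℝ => ‖z‖ ^ 2 / r ^ 2) (-(2 * ‖z‖ ^ 2) / r ^ 3) r := by
    have h3 := ((hasDerivAt_pow 2 r).fun_inv (pow_ne_zero 2 hr0)).const_mul (‖z‖ ^ 2)
    have e3 : (fun r : ℝ => ‖z‖ ^ 2 / r ^ 2) = fun r => ‖z‖ ^ 2 * (r ^ 2)⁻¹ := by
      funext r; rfl
    rw [e3]
    refine h3.congr_deriv ?_
    norm_num
    field_simp
  have h4 := ((kk_differentiable (‖z‖ ^ 2 / r ^ 2)).hasDerivAt).comp r h2
  have h5 := (h1.mul h4).const_mul ((∫ z, kap0 z)⁻¹)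
  refine h5.congr_deriv ?_
  unfold gg
  simp only [Function.comp]
  generalize deriv kk (‖z‖ ^ 2 / r ^ 2) = a
  generalize kk (‖z‖ ^ 2 / r ^ 2) = b
  field_simp
  ring

theorem kap_abs_le {r : ℝ} (hr : 0 < r) (z : E) : |kap r z| ≤ (∫ z, kap0 z)⁻¹ * (r ^ 3)⁻¹ := by
  have hc : 0 ≤ (∫ z, kap0 z)⁻¹ :=
    inv_nonneg.2 (integral_nonneg fun z => expNegInvGlue.nonneg _)
  rw [kap_eq, abs_of_nonneg (mul_nonneg (mul_nonneg hc (by positivity)) (kk_nonneg _))]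
  have h1 : 0 ≤ (∫ z, kap0 z)⁻¹ * (r ^ 3)⁻¹ := mul_nonneg hc (by positivity)
  calc (∫ z, kap0 z)⁻¹ * (r ^ 3)⁻¹ * kk (‖z‖ ^ 2 / r ^ 2)
      ≤ (∫ z, kap0 z)⁻¹ * (r ^ 3)⁻¹ * 1 := mul_le_mul_of_nonneg_left (kk_le_one _) h1
    _ = _ := mul_one _

end Pool.Agent.Helper93.Curl
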